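import Pool.Agent.Q41.SP.Stm2
import Pool.Agent.Q198.SU.Num

/-! Project SP (helper41), job SP-Q1 (S_numP). -/

set_option autoImplicit false

open Finset
open Pool.Agent.Q198.SU

namespace Pool.Agent.Q251.SP

theorem main_ineqP (J q Θ ν b n : ℕ) (hΘdef : Θ = J * q) (hJ : 2 ≤ J) (hν : 1 ≤ ν)
    (hb : 1000 * ν ^ 2 ≤ b)
    (hq : 1000 * ν ≤ q) (hn : 16 * J * ν < n) (hN : 2 * n ≤ (Θ * b + 1) * (b + 1))
    (T : Finset (Pool.Agent.Q41.SU.II (Θ * b) b)) (hT : T.card = n) :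
    (49 : ℝ) / 48 * (n * (n - 1)) / b + ν * min ((Θ : ℝ) * n) (n * (n - 1) / (2 * b)) +
      J * ν * n ≤
      ((∑ x ∈ T, (1 * (x.1 : ℕ) + Θ * (x.2 : ℕ)) : ℕ) : ℝ) := by
  obtain ⟨m, rfl⟩ : ∃ m, n = m + 1 := ⟨n - 1, by omega⟩
  have hΘc : (J : ℝ) * q = Θ := by rw [hΘdef]; push_cast; ring
  set W := ∑ x ∈ T, (1 * (x.1 : ℕ) + Θ * (x.2 : ℕ)) with hW
  have hJr : (2 : ℝ) ≤ J := by exact_mod_cast hJ
  have hνr : (1 : ℝ) ≤ ν := by exact_mod_cast hν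
  have hbr : 1000 * (ν : ℝ) ^ 2 ≤ b := by exact_mod_cast hb
  have hqr : 1000 * (ν : ℝ) ≤ q := by exact_mod_cast hq
  have hJν : 1000 * ((J : ℝ) * ν) ≤ Θ := by
    rw [← hΘc]
    nlinarith
  have hmr : 16 * ((J : ℝ) * ν) ≤ m := by
    have : 16 * J * ν ≤ m := by omega
    have h : ((16 * J * ν : ℕ) : ℝ) ≤ m := by exact_mod_cast this
    push_cast at h
    linarith
  have hJν1 : (2 : ℝ) ≤ J * ν := by nlinarith
  have hΘr : (1 : ℝ) ≤ Θ := by linarith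
  have hm1 : (1 : ℝ) ≤ m := by linarith
  have hνν : (ν : ℝ) ≤ (ν : ℝ) ^ 2 := by nlinarith
  have hb1 : 1000 * (ν : ℝ) ≤ b := by linarith
  have hb1000 : (1000 : ℝ) ≤ b := by linarith
  have hb100 : (100 : ℝ) ≤ b := by linarith
  have hb0 : (0 : ℝ) < b := by linarith
  have hΘ0 : (0 : ℝ) < Θ := by linarith
  have ecast : ((m + 1 : ℕ) : ℝ) - 1 = m := by push_cast; ring
  rw [ecast]
  push_cast
  have hmm : (0 : ℝ) ≤ ((m : ℝ) + 1) * m := by positivity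
  -- the crude bound of the first two terms
  have hcrude : (49 : ℝ) / 48 * ((m + 1) * m) / b +
      ν * min ((Θ : ℝ) * ((m : ℝ) + 1)) ((m + 1) * m / (2 * b)) ≤ 1 / 500 * ((m + 1) * m) := by
    have h1 : ν * min ((Θ : ℝ) * ((m : ℝ) + 1)) ((m + 1) * m / (2 * b)) ≤
        ν * ((m + 1) * m / (2 * b)) :=
      mul_le_mul_of_nonneg_left (min_le_right _ _) (by positivity)
    have h2 : (ν : ℝ) * ((m + 1) * m / (2 * b)) ≤ 1 / 2000 * ((m + 1) * m) := by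
      rw [← mul_div_assoc, div_le_iff₀ (by positivity)]
      nlinarith
    have h3 : (49 : ℝ) / 48 * ((m + 1) * m) / b ≤ 49 / 48000 * ((m + 1) * m) := by
      rw [div_le_iff₀ hb0]
      nlinarith
    linarith
  by_cases hc1 : m ≤ Θ
  · have h1 := thr_small Θ (Θ * b) b m hc1 T
    rw [hT] at h1
    have h2 : 2 * ((m : ℝ) * (m + 1)) ≤ 2 * (W : ℝ) + m * (m + 1) := by exact_mod_cast h1
    have h3 : (J : ℝ) * ν * (m + 1) ≤ 1 / 16 * ((m + 1) * m) := by nlinarith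
    nlinarith
  push Not at hc1
  have hc1r : (Θ : ℝ) + 1 ≤ m := by exact_mod_cast hc1
  have hthird : (J : ℝ) * ν * (m + 1) ≤ 1 / 1000 * (Θ * ((m : ℝ) + 1)) := by nlinarith
  by_cases hc2 : m ≤ 24 * Θ
  · have h1 := thr_big Θ (Θ * b) b 1 T
    rw [hT] at h1
    have h2 : 12 * ((Θ : ℝ) * 1 * (m + 1)) ≤ 12 * (W : ℝ) +
        ((Θ : ℝ) ^ 2 * (1 * (1 + 1) * (2 * 1 + 1)) + 3 * Θ * (1 * (1 + 1))) := by
      exact_mod_cast h1
    have hc2r : (m : ℝ) ≤ 24 * Θ := by exact_mod_cast hc2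
    nlinarith
  push Not at hc2
  have hc2r : (24 : ℝ) * Θ < m := by exact_mod_cast hc2
  set y := Real.sqrt (2 * m / Θ) with hy
  have hysq : y ^ 2 = 2 * m / Θ := Real.sq_sqrt (by positivity)
  have hysq2 : Θ * y ^ 2 = 2 * m := by
    rw [hysq]
    field_simp
  have hy0 : 0 ≤ y := Real.sqrt_nonneg _
  have hy69 : 69 / 10 ≤ y := by
    apply Real.le_sqrt_of_sq_le
    rw [le_div_iff₀ hΘ0]
    nlinarith
  have hyb : y ≤ b + 1 := by
    apply Real.sqrt_le_iff.2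
    refine ⟨by linarith, ?_⟩
    rw [div_le_iff₀ hΘ0]
    have h1 : 2 * ((m : ℝ) + 1) ≤ (Θ * b + 1) * (b + 1) := by exact_mod_cast hN
    nlinarith
  -- second term
  have hsec : (ν : ℝ) * min ((Θ : ℝ) * ((m : ℝ) + 1)) ((m + 1) * m / (2 * b)) ≤
      Θ * (m + 1) * (y / 20) := by
    have h0 : 0 ≤ min ((Θ : ℝ) * ((m : ℝ) + 1)) ((m + 1) * m / (2 * b)) :=
      le_min (by positivity) (by positivity)
    have h1 : (min ((Θ : ℝ) * ((m : ℝ) + 1)) ((m + 1) * m / (2 * b))) ^ 2 ≤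
        ((Θ : ℝ) * ((m : ℝ) + 1)) * ((m + 1) * m / (2 * b)) := by
      rw [sq]
      exact mul_le_mul (min_le_left _ _) (min_le_right _ _) h0 (by positivity)
    apply le_of_sq_le_sq _ (by positivity)
    rw [mul_pow]
    have hb' : (ν : ℝ) ^ 2 / b ≤ 1 / 1000 := by
      rw [div_le_div_iff₀ hb0 (by norm_num)]
      linarith
    calc (ν : ℝ) ^ 2 * (min ((Θ : ℝ) * ((m : ℝ) + 1)) ((m + 1) * m / (2 * b))) ^ 2
        ≤ (ν : ℝ) ^ 2 * (((Θ : ℝ) * ((m : ℝ) + 1)) * ((m + 1) * m / (2 * b))) :=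
          mul_le_mul_of_nonneg_left h1 (by positivity)
      _ = ((ν : ℝ) ^ 2 / b) * (Θ * (m + 1) ^ 2 * (2 * m)) / 4 := by
          field_simp
          ring
      _ ≤ (1 / 1000) * (Θ * (m + 1) ^ 2 * (2 * m)) / 4 := by
          gcongr
      _ = Θ * (m + 1) ^ 2 * (Θ * y ^ 2) / 4000 := by
          rw [hysq2]; ring
      _ ≤ (Θ * (m + 1) * (y / 20)) ^ 2 := by
          have : 0 ≤ (Θ : ℝ) * (m + 1) ^ 2 * (Θ * y ^ 2) := by positivity
          nlinarith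
  obtain ⟨j, hj⟩ : ∃ j, ⌊y⌋₊ = j + 1 := by
    have : 1 ≤ ⌊y⌋₊ := Nat.le_floor (by push_cast; linarith)
    exact ⟨⌊y⌋₊ - 1, by omega⟩
  have hz1 : ((j : ℝ) + 1) ≤ y := by
    have := Nat.floor_le hy0
    rw [hj] at this
    exact_mod_cast this
  have hz2 : y ≤ (j : ℝ) + 1 + 1 := by
    have := Nat.lt_floor_add_one y
    rw [hj] at this
    push_cast at this
    linarith
  have h1 := thr_big Θ (Θ * b) b j T
  rw [hT] at h1
  have h2 : 12 * ((Θ : ℝ) * j * (m + 1)) ≤ 12 * (W : ℝ) +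
      ((Θ : ℝ) ^ 2 * (j * (j + 1) * (2 * j + 1)) + 3 * Θ * (j * (j + 1))) := by
    exact_mod_cast h1
  have h3 := real_ineq y b (j + 1) hy69 hz1 (by linarith) hb100 hyb
  have hy2 : 0 < y ^ 2 := by positivity
  -- bound of the subtracted term
  have h4 : (Θ : ℝ) ^ 2 * (j * (j + 1) * (2 * j + 1)) + 3 * Θ * (j * (j + 1)) ≤
      2 * (Θ : ℝ) ^ 2 * (j * (j + 1) * (j + 2)) := by
    have : 0 ≤ (j : ℝ) * (j + 1) := by positivity
    have h5 : 3 * (Θ : ℝ) ≤ 3 * Θ ^ 2 := by nlinarith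
    nlinarith
  have h5 : (Θ : ℝ) ^ 2 * (j * (j + 1) * (j + 2)) / 6 ≤
      Θ * (m + 1) * (((j : ℝ) + 1 - 1) * (j + 1) * (j + 1 + 1) / (3 * y ^ 2)) := by
    have e : Θ * ((m : ℝ) + 1) * (((j : ℝ) + 1 - 1) * (j + 1) * (j + 1 + 1) / (3 * y ^ 2)) =
        Θ * ((m : ℝ) + 1) * (j * (j + 1) * (j + 2)) / (3 * y ^ 2) := by
      rw [mul_div_assoc]
      ring
    rw [e, div_le_div_iff₀ (by norm_num) (by positivity)]
    have h6 : (Θ : ℝ) ^ 2 * (3 * y ^ 2) = 6 * Θ * m := by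
      have h8 : (Θ : ℝ) ^ 2 * (3 * y ^ 2) = 3 * (Θ : ℝ) * ((Θ : ℝ) * y ^ 2) := by ring
      rw [h8, hysq2]
      ring
    have h7 : 0 ≤ (j : ℝ) * (j + 1) * (j + 2) := by positivity
    calc (Θ : ℝ) ^ 2 * (j * (j + 1) * (j + 2)) * (3 * y ^ 2)
        = ((Θ : ℝ) ^ 2 * (3 * y ^ 2)) * (j * (j + 1) * (j + 2)) := by ring
      _ = 6 * (Θ : ℝ) * m * ((j : ℝ) * (j + 1) * (j + 2)) := by rw [h6]
      _ ≤ Θ * ((m : ℝ) + 1) * (j * (j + 1) * (j + 2)) * 6 := by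
          have : (0 : ℝ) ≤ 6 * Θ * (j * (j + 1) * (j + 2)) := by positivity
          linarith
  have hfst : (49 : ℝ) / 48 * ((m + 1) * m) / b =
      Θ * (m + 1) * (49 / 96 * y ^ 2 / b) := by
    rw [hysq]
    field_simp
    ring
  have hfin : Θ * ((m : ℝ) + 1) * (49 / 96 * y ^ 2 / b + y / 10) ≤
      Θ * ((m : ℝ) + 1) * (((j : ℝ) + 1 - 1) -
        (((j : ℝ) + 1 - 1) * (j + 1) * (j + 1 + 1)) / (3 * y ^ 2)) :=
    mul_le_mul_of_nonneg_left h3 (by positivity)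
  have hth2 : (J : ℝ) * ν * (m + 1) ≤ Θ * (m + 1) * (y / 20) := by
    have : 0 ≤ (Θ : ℝ) * (m + 1) := by positivity
    nlinarith
  rw [hfst]
  have e2 : Θ * ((m : ℝ) + 1) * (((j : ℝ) + 1 - 1) -
        (((j : ℝ) + 1 - 1) * (j + 1) * (j + 1 + 1)) / (3 * y ^ 2)) =
      Θ * j * (m + 1) - Θ * (m + 1) *
        (((j : ℝ) + 1 - 1) * (j + 1) * (j + 1 + 1) / (3 * y ^ 2)) := by ring
  rw [e2] at hfin
  have e3 : Θ * ((m : ℝ) + 1) * (49 / 96 * y ^ 2 / b + y / 10) =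
      Θ * ((m : ℝ) + 1) * (49 / 96 * y ^ 2 / b) + (Θ * ((m : ℝ) + 1) * (y / 20) +
        Θ * ((m : ℝ) + 1) * (y / 20)) := by ring
  rw [e3] at hfin
  linarith

theorem numP : Pool.Agent.Q41.SP.S_numP := by
  intro J q ν b n hJ hν hb hq hn hN
  have hne : {m : ℕ | ∃ T : Finset (Pool.Agent.Q41.SU.II (J * q * b) b), T.card = n ∧
      m = ∑ x ∈ T, (1 * (x.1 : ℕ) + (J * q) * (x.2 : ℕ))}.Nonempty := by
    have hcard : n ≤ (univ : Finset (Pool.Agent.Q41.SU.II (J * q * b) b)).card := by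
      rw [card_univ, Fintype.card_prod, Fintype.card_fin, Fintype.card_fin]
      omega
    obtain ⟨T, _, hT⟩ := exists_subset_card_eq hcard
    exact ⟨_, T, hT, rfl⟩
  obtain ⟨T, hT, hW⟩ := Nat.sInf_mem hne
  have h := main_ineqP J q (J * q) ν b n rfl hJ hν hb hq hn hN T hT
  unfold Pool.Agent.Q41.SU.phi
  rw [hW]
  rw [show (((J * q : ℕ) : ℝ)) = (J : ℝ) * q by push_cast; ring] at h
  exact h

end Pool.Agent.Q251.SP
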