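import Pool.Agent.Q62.SP.Stm

/-! Project SP (helper62), job 25 (helper251): the operator on `C¹` fields. -/

set_option autoImplicit false

open MeasureTheory Set Filter Topology
open scoped ContDiff
open H459R3.NS (V K3 pd Per cube)

namespace Pool.Agent.Q251.SP

open Pool.Agent.Q62.SP

theorem per_nat {F : Type*} {f : V → F} (hf : Per f) (i : Fin 3) (n : ℕ) (x : V) :
    f (x + Pi.single i (n : ℝ)) = f x := by
  induction n generalizing x with
  | zero => simp
  | succ n ih =>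
    have h : x + Pi.single i ((n + 1 : ℕ) : ℝ) = (x + Pi.single i (n : ℝ)) + Pi.single i 1 := by
      rw [add_assoc, ← Pi.single_add]
      push_cast
      rfl
    rw [h, hf, ih]

theorem per_int {F : Type*} {f : V → F} (hf : Per f) (i : Fin 3) (n : ℤ) (x : V) :
    f (x + Pi.single i (n : ℝ)) = f x := by
  obtain ⟨m, rfl | rfl⟩ := n.eq_nat_or_neg
  · simpa using per_nat hf i m x
  · have h := per_nat hf i m (x + Pi.single i (((-(m : ℤ) : ℤ)) : ℝ))
    rw [add_assoc, ← Pi.single_add] at h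
    simpa using h.symm

theorem per_fract {F : Type*} {f : V → F} (hf : Per f) (x : V) :
    f (fun i => Int.fract (x i)) = f x := by
  have h : x = (((fun i => Int.fract (x i)) + Pi.single 0 ((⌊x 0⌋ : ℤ) : ℝ)) + Pi.single 1 ((⌊x 1⌋ : ℤ) : ℝ)) +
      Pi.single 2 ((⌊x 2⌋ : ℤ) : ℝ) := by
    funext i
    fin_cases i <;> simp
  conv_rhs => rw [h, per_int hf, per_int hf, per_int hf]

theorem per_bdd {f : V → ℝ} (hf : Per f) (hc : Continuous f) : ∃ L : ℝ, ∀ x, |f x| ≤ L := by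
  obtain ⟨L, hL⟩ := (isCompact_Icc (a := (0 : V)) (b := 1)).exists_bound_of_continuousOn hc.continuousOn
  refine ⟨L, fun x => ?_⟩
  rw [← per_fract hf x, ← Real.norm_eq_abs]
  exact hL _ ⟨fun i => Int.fract_nonneg _, fun i => (Int.fract_lt_one _).le⟩

theorem per_pd {f : V → ℝ} (hp : Per f) (j : Fin 3) : Per (pd j f) := by
  intro i x
  unfold H459R3.NS.pd
  have h : (fun y => f (y + Pi.single i 1)) = f := funext fun y => hp i y
  have h2 := fderiv_comp_add_right (𝕜 := ℝ) (f := f) (x := x) (Pi.single i (1 : ℝ))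
  rw [h] at h2
  rw [h2]

theorem cont_pd {f : V → ℝ} (hf : ContDiff ℝ 1 f) (j : Fin 3) : Continuous (pd j f) := by
  unfold H459R3.NS.pd
  exact (hf.continuous_fderiv one_ne_zero).clm_apply continuous_const

theorem norm_le_pd {f : V → ℝ} {x : V} {M : ℝ} (h : ∀ j, |pd j f x| ≤ M) : ‖fderiv ℝ f x‖ ≤ 3 * M := by
  have hM : 0 ≤ M := (abs_nonneg _).trans (h 0)
  refine ContinuousLinearMap.opNorm_le_bound _ (by positivity) fun v => ?_
  have hv : v = ∑ j, v j • (Pi.single j (1 : ℝ) : V) := by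
    funext i
    simp [Finset.sum_apply, Pi.single_apply]
  have h1 : fderiv ℝ f x v = ∑ j, v j * pd j f x := by
    conv_lhs => rw [hv]
    rw [map_sum]
    refine Finset.sum_congr rfl fun j _ => ?_
    rw [map_smul, smul_eq_mul]
    rfl
  rw [h1]
  calc ‖∑ j, v j * pd j f x‖ ≤ ∑ j, ‖v j * pd j f x‖ := norm_sum_le _ _
    _ ≤ ∑ _j : Fin 3, ‖v‖ * M := by
        refine Finset.sum_le_sum fun j _ => ?_
        rw [norm_mul, Real.norm_eq_abs (pd j f x)]
        exact mul_le_mul (norm_le_pi_norm v j) (h j) (abs_nonneg _) (norm_nonneg _)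
    _ = 3 * M * ‖v‖ := by
        rw [Finset.sum_const, Finset.card_univ, Fintype.card_fin]
        ring

/-- a component of a `C¹` field -/
theorem comp_c1 {f : V → V} (hf : ContDiff ℝ 1 f) (i : Fin 3) : ContDiff ℝ 1 fun y => f y i :=
  (contDiff_pi.1 hf) i

theorem summ2 (r : ℝ) (h0 : 0 ≤ r) (h1 : r < 1) (c : ℝ) : Summable fun n : ℕ => c * (((n : ℝ) + 1) ^ 2 * r ^ n) := by
  refine Summable.mul_left c ?_
  have h : Summable fun n : ℕ => (((n : ℝ) + 1) ^ 2 * r ^ (n + 1)) := by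
    have := (summable_nat_add_iff 1).2 (summable_pow_mul_geometric_of_norm_lt_one 2 (r := r) (by
      rw [Real.norm_eq_abs, abs_of_nonneg h0]; exact h1))
    simpa using this
  rcases h0.eq_or_lt with h2 | h2
  · subst h2
    refine summable_of_ne_finset_zero (s := {0}) fun n hn => ?_
    rw [Finset.mem_singleton] at hn
    rw [zero_pow hn, mul_zero]
  · refine (h.mul_left r⁻¹).congr fun n => ?_
    rw [pow_succ]
    field_simp
    ring

section

variable {N C : ℝ}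

/-- the `n`-th term -/
noncomputable def tm (N : ℝ) (f : V → V) (n : ℕ) (i : Fin 3) (x : V) : ℝ :=
  ka N n * (ip f (ee N n) * dd N n x i + ip f (dd N n) * ee N n x i)

theorem tm_c1 (hE : EDB N C) (f : V → V) (n : ℕ) (i : Fin 3) : ContDiff ℝ 1 (tm N f n i) := by
  have h1 : ContDiff ℝ 1 fun y => ee N n y i := comp_c1 ((hE.smooth n).1.of_le (by exact_mod_cast le_top)) i
  have h2 : ContDiff ℝ 1 fun y => dd N n y i := comp_c1 ((hE.smooth n).2.of_le (by exact_mod_cast le_top)) i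
  exact contDiff_const.mul ((contDiff_const.mul h2).add (contDiff_const.mul h1))

theorem tm_pd (hE : EDB N C) (f : V → V) (n : ℕ) (i j : Fin 3) (x : V) : pd j (tm N f n i) x =
    ka N n * (ip f (ee N n) * pd j (fun y => dd N n y i) x + ip f (dd N n) * pd j (fun y => ee N n y i) x) := by
  have h1 : DifferentiableAt ℝ (fun y => ee N n y i) x :=
    ((comp_c1 ((hE.smooth n).1.of_le (by exact_mod_cast le_top)) i).differentiable one_ne_zero) x
  have h2 : DifferentiableAt ℝ (fun y => dd N n y i) x :=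
    ((comp_c1 ((hE.smooth n).2.of_le (by exact_mod_cast le_top)) i).differentiable one_ne_zero) x
  unfold H459R3.NS.pd tm
  have h3 : HasFDerivAt (fun x => ka N n * (ip f (ee N n) * dd N n x i + ip f (dd N n) * ee N n x i))
      (ka N n • (ip f (ee N n) • fderiv ℝ (fun y => dd N n y i) x + ip f (dd N n) • fderiv ℝ (fun y => ee N n y i) x)) x :=
    ((h2.hasFDerivAt.const_mul _).add (h1.hasFDerivAt.const_mul _)).const_mul _
  rw [h3.fderiv]
  rfl

variable {K L : ℝ} {f : V → V}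

theorem ka_abs (h198 : 198 ≤ N) (n : ℕ) : |ka N n| = N * |ca⁻¹| * (((n : ℝ) + 1) ^ 2 * 4 ^ n) := by
  unfold ka
  rw [div_eq_mul_inv, abs_mul, abs_mul, abs_mul, abs_of_nonneg (by linarith : (0 : ℝ) ≤ N),
    abs_of_nonneg (by positivity : (0 : ℝ) ≤ ((n : ℝ) + 1) ^ 2), abs_of_nonneg (by positivity : (0 : ℝ) ≤ (4 : ℝ) ^ n)]
  ring

theorem tm_bd (h198 : 198 ≤ N) (hE : EDB N C) (hK : 0 < K) (hL : 0 ≤ L)
    (hp : ∀ n : ℕ, |ip f (ee N n)| ≤ K * L / 8 ^ n ∧ |ip f (dd N n)| ≤ K * L / 16 ^ n) (n : ℕ) (i : Fin 3) (x : V) :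
    |tm N f n i x| ≤ N * |ca⁻¹| * (K * L) * (C + 1) * (((n : ℝ) + 1) ^ 2 * (1 / 4) ^ n) := by
  have hC := hE.pos
  obtain ⟨a1, a2⟩ := hp n
  obtain ⟨b1, b2⟩ := hE.bd n x i
  have hN : 0 ≤ N := by linarith
  unfold tm
  rw [abs_mul, ka_abs h198]
  have h1 : |ip f (ee N n) * dd N n x i + ip f (dd N n) * ee N n x i| ≤
      K * L / 8 ^ n * (C / 2 ^ n) + K * L / 16 ^ n * 1 := by
    refine (abs_add_le _ _).trans (add_le_add ?_ ?_)
    · rw [abs_mul]
      exact mul_le_mul a1 b2 (abs_nonneg _) (by positivity)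
    · rw [abs_mul]
      exact mul_le_mul a2 b1 (abs_nonneg _) (by positivity)
  refine (mul_le_mul_of_nonneg_left h1 (by positivity)).trans (le_of_eq ?_)
  have e1 : (8 : ℝ) ^ n = 4 ^ n * 2 ^ n := by rw [← mul_pow]; norm_num
  have e2 : (16 : ℝ) ^ n = 4 ^ n * (2 ^ n * 2 ^ n) := by rw [← mul_pow, ← mul_pow]; norm_num
  have e3 : (1 / 4 : ℝ) ^ n = 1 / (2 ^ n * 2 ^ n) := by rw [← mul_pow, one_div_pow]; norm_num
  rw [e1, e2, e3]
  field_simp

theorem tm_pd_bd (h198 : 198 ≤ N) (hE : EDB N C) (hK : 0 < K) (hL : 0 ≤ L)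
    (hp : ∀ n : ℕ, |ip f (ee N n)| ≤ K * L / 8 ^ n ∧ |ip f (dd N n)| ≤ K * L / 16 ^ n) (n : ℕ) (i j : Fin 3) (x : V) :
    |pd j (tm N f n i) x| ≤ N * |ca⁻¹| * K * (2 * C) * L * (((n : ℝ) + 1) ^ 2 * (1 / 2) ^ n) := by
  have hC := hE.pos
  obtain ⟨a1, a2⟩ := hp n
  obtain ⟨b1, b2⟩ := hE.grad n x i j
  have hN : 0 ≤ N := by linarith
  rw [tm_pd hE, abs_mul, ka_abs h198]
  have h1 : |ip f (ee N n) * pd j (fun y => dd N n y i) x + ip f (dd N n) * pd j (fun y => ee N n y i) x| ≤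
      K * L / 8 ^ n * C + K * L / 16 ^ n * (C * 2 ^ n) := by
    refine (abs_add_le _ _).trans (add_le_add ?_ ?_)
    · rw [abs_mul]
      exact mul_le_mul a1 b2 (abs_nonneg _) (by positivity)
    · rw [abs_mul]
      exact mul_le_mul a2 b1 (abs_nonneg _) (by positivity)
  refine (mul_le_mul_of_nonneg_left h1 (by positivity)).trans (le_of_eq ?_)
  have e1 : (8 : ℝ) ^ n = 4 ^ n * 2 ^ n := by rw [← mul_pow]; norm_num
  have e2 : (16 : ℝ) ^ n = 4 ^ n * (2 ^ n * 2 ^ n) := by rw [← mul_pow, ← mul_pow]; norm_num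
  have e3 : (1 / 2 : ℝ) ^ n = 1 / 2 ^ n := by rw [one_div_pow]
  rw [e1, e2, e3]
  field_simp
  ring

/-- everything for one field -/
theorem main (h198 : 198 ≤ N) (hE : EDB N C) (hK : 0 < K) (hL : 0 ≤ L)
    (hp : ∀ n : ℕ, |ip f (ee N n)| ≤ K * L / 8 ^ n ∧ |ip f (dd N n)| ≤ K * L / 16 ^ n) :
    C1P (BB N f) ∧ (∀ x, ∑ i, pd i (fun y => BB N f y i) x = 0) ∧
    ∀ x i j, |pd j (fun y => BB N f y i) x| ≤
      (N * |ca⁻¹| * K * (2 * C) * ∑' n : ℕ, (((n : ℝ) + 1) ^ 2 * (1 / 2) ^ n)) * L := by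
  have hN : 0 ≤ N := by linarith
  have hBB : ∀ i, (fun y => BB N f y i) = fun y => ∑' n, tm N f n i y := fun i => rfl
  set v0 : ℕ → ℝ := fun n => N * |ca⁻¹| * (K * L) * (C + 1) * (((n : ℝ) + 1) ^ 2 * (1 / 4) ^ n) with hv0
  set v1 : ℕ → ℝ := fun n => N * |ca⁻¹| * K * (2 * C) * L * (((n : ℝ) + 1) ^ 2 * (1 / 2) ^ n) with hv1
  have s0 : Summable v0 := summ2 (1 / 4) (by norm_num) (by norm_num) _
  have s1 : Summable v1 := summ2 (1 / 2) (by norm_num) (by norm_num) _
  have b0 : ∀ n i x, ‖tm N f n i x‖ ≤ v0 n := fun n i x => tm_bd h198 hE hK hL hp n i x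
  have b1 : ∀ n i j x, |pd j (tm N f n i) x| ≤ v1 n := fun n i j x => tm_pd_bd h198 hE hK hL hp n i j x
  have b2 : ∀ n i x, ‖fderiv ℝ (tm N f n i) x‖ ≤ 3 * v1 n := fun n i x => norm_le_pd fun j => b1 n i j x
  have hc1 : ∀ i, ContDiff ℝ 1 fun y => BB N f y i := by
    intro i
    rw [hBB]
    refine contDiff_tsum (N := 1) (v := fun k n => if k = 0 then v0 n else 3 * v1 n) (fun n => tm_c1 hE f n i) ?_ ?_
    · intro k _
      by_cases hk : k = 0
      · simpa [hk] using s0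
      · simpa [hk] using s1.mul_left 3
    · intro k n x hk
      have hk' : k ≤ 1 := by exact_mod_cast hk
      interval_cases k
      · rw [norm_iteratedFDeriv_zero]
        simpa using b0 n i x
      · rw [norm_iteratedFDeriv_one]
        simpa using b2 n i x
  have hfd : ∀ i, (fderiv ℝ fun y => BB N f y i) = fun x => ∑' n, fderiv ℝ (tm N f n i) x := by
    intro i
    rw [hBB]
    exact fderiv_tsum (u := fun n => 3 * v1 n) (s1.mul_left 3)
      (fun n => (tm_c1 hE f n i).differentiable one_ne_zero) (fun n x => b2 n i x)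
      (Summable.of_norm_bounded s0 fun n => b0 n i 0)
  have hpd : ∀ i j x, pd j (fun y => BB N f y i) x = ∑' n, pd j (tm N f n i) x := by
    intro i j x
    have hs : Summable fun n => fderiv ℝ (tm N f n i) x := Summable.of_norm_bounded (s1.mul_left 3) fun n => b2 n i x
    show fderiv ℝ (fun y => BB N f y i) x (Pi.single j 1) = _
    rw [hfd i]
    exact (ContinuousLinearMap.apply ℝ ℝ (Pi.single j 1 : V)).map_tsum hs
  have hsp : ∀ i j x, Summable fun n => pd j (tm N f n i) x := fun i j x =>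
    Summable.of_norm_bounded s1 fun n => b1 n i j x
  refine ⟨⟨contDiff_pi.2 hc1, fun i x => ?_⟩, fun x => ?_, fun x i j => ?_⟩
  · funext k
    unfold BB
    refine tsum_congr fun n => ?_
    rw [(hE.per n).1 i x, (hE.per n).2 i x]
  · simp only [hpd]
    rw [← Summable.tsum_finsetSum fun i _ => hsp i i x]
    have h0 : ∀ n, ∑ i, pd i (tm N f n i) x = 0 := by
      intro n
      obtain ⟨d1, d2⟩ := hE.div n x
      simp only [tm_pd hE]
      rw [← Finset.mul_sum, Finset.sum_add_distrib, ← Finset.mul_sum, ← Finset.mul_sum, d1, d2]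
      ring
    simp only [h0, tsum_zero]
  · rw [hpd]
    have h1 : ‖∑' n, pd j (tm N f n i) x‖ ≤ ∑' n, v1 n :=
      tsum_of_norm_bounded s1.hasSum fun n => b1 n i j x
    rw [Real.norm_eq_abs] at h1
    refine h1.trans (le_of_eq ?_)
    rw [hv1, tsum_mul_left]
    ring

end

theorem t_BC1 (hp1 : S_EDP) : S_BC1 := by
  intro N C h198 hE
  obtain ⟨K, hK, hp⟩ := hp1 N C h198 hE
  have hL0 : ∀ (f : V → V) (L : ℝ), (∀ x i j, |pd j (fun y => f y i) x| ≤ L) → 0 ≤ L := fun f L h =>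
    (abs_nonneg _).trans (h 0 0 0)
  refine ⟨fun f hf => ?_, ?_⟩
  · have hb : ∀ i j, ∃ L : ℝ, ∀ x, |pd j (fun y => f y i) x| ≤ L := fun i j =>
      per_bdd (per_pd (fun k x => congrFun (hf.per k x) i) j) (cont_pd (comp_c1 hf.c1 i) j)
    choose Lf hLf using hb
    have hL : ∀ x i j, |pd j (fun y => f y i) x| ≤ ∑ i, ∑ j, |Lf i j| := by
      intro x i j
      refine (hLf i j x).trans ((le_abs_self _).trans ?_)
      refine le_trans ?_ (Finset.single_le_sum (f := fun i => ∑ j, |Lf i j|)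
        (fun i _ => Finset.sum_nonneg fun j _ => abs_nonneg _) (Finset.mem_univ i))
      exact Finset.single_le_sum (f := fun j => |Lf i j|) (fun j _ => abs_nonneg _) (Finset.mem_univ j)
    obtain ⟨m1, m2, -⟩ := main h198 hE hK (hL0 f _ hL) (hp f _ hf hL)
    exact ⟨m1, m2⟩
  · refine ⟨N * |ca⁻¹| * K * (2 * C) * ∑' n : ℕ, (((n : ℝ) + 1) ^ 2 * (1 / 2) ^ n) + 1, ?_, fun f L hf hL => ?_⟩
    · have hN : 0 ≤ N := by linarith
      have hC := hE.pos
      have : 0 ≤ ∑' n : ℕ, (((n : ℝ) + 1) ^ 2 * (1 / 2 : ℝ) ^ n) := tsum_nonneg fun n => by positivity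
      positivity
    · intro x i j
      have hL' := hL0 f L hL
      refine ((main h198 hE hK hL' (hp f L hf hL)).2.2 x i j).trans ?_
      rw [add_mul, one_mul]
      linarith

end Pool.Agent.Q251.SP
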